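import Pool.Agent.Y6.F.Stm
import Pool.Agent.Y5.EM.PH3b
import Pool.Agent.Y161.EM.WTM
import Pool.Agent.Y26.EM.PH2
import Pool.Agent.Y419.EM.Ph1
import Pool.Agent.Y812.EM.Frame

/-! The passage to fields (project EF of helper6, job EF-PH3; port of `Pool/Agent/Y5/EM/PH3a`,
`PH3b`). -/

open Set Filter Topology
open scoped ComplexConjugate

set_option autoImplicit false

namespace Pool.Agent.Y876.EF.Ph3

open Pool.Agent.Y6.F
open Pool.Agent.Y6.M (qd mq Kz Ker Adm Dat TSol Wt KSol cX cY Uth εc x0 Mains MDat Z3 C3 Coef dt cr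
  cj kc nsq len adv leray Kop IsField IsSol energy enstr Md hs br Frame cK sgz amp fld S_PH1 S_PH2)
open Pool.Agent.Y5.EM.PH3 (dt_eq dt_sub_right dt_sub_left h_sum h_le nsq_nonneg nsq_one len_sq
  len_nonneg one_le_len fld_ne fld_zero fld_bd amp_bdq fld_field sum_md energy_fld)

lemma NM_rfl : (NM : Md → ℝ) = Pool.Agent.Y6.M.NM := rfl

lemma one_le_NM (i : Md) : 1 ≤ NM i := Pool.Agent.Y5.EM.PH3.one_le_NM i

/-! ### the multiplier -/

noncomputable def mm (k : Z3) : ℝ :=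
  open Classical in
  if hk : k = 0 then 0 else (ωF (⟨k, hk⟩, true) + ωF (⟨k, hk⟩, false)) / 2

noncomputable def nn (k : Z3) : ℝ :=
  open Classical in
  if hk : k = 0 then 0 else (ωF (⟨k, hk⟩, true) - ωF (⟨k, hk⟩, false)) / 2

lemma om_br (hLV : S_LV) (i : Md) : ωF (br i) = -ωF i := by
  obtain ⟨-, -, -, -, h5, -⟩ := hLV
  unfold ωF
  rw [(h5 i).2.1, (h5 i).2.2]
  ring

lemma mm_odd (hLV : S_LV) (k : Z3) : mm (-k) = -mm k := by
  by_cases hk : k = 0
  · subst hk; simp [mm]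
  · have hk' : -k ≠ 0 := neg_ne_zero.2 hk
    unfold mm
    rw [dif_neg hk, dif_neg hk']
    have h1 := om_br hLV (⟨k, hk⟩, true)
    have h2 := om_br hLV (⟨k, hk⟩, false)
    unfold br at h1 h2
    simp only at h1 h2
    rw [h1, h2]
    ring

lemma nn_odd (hLV : S_LV) (k : Z3) : nn (-k) = -nn k := by
  by_cases hk : k = 0
  · subst hk; simp [nn]
  · have hk' : -k ≠ 0 := neg_ne_zero.2 hk
    unfold nn
    rw [dif_neg hk, dif_neg hk']
    have h1 := om_br hLV (⟨k, hk⟩, true)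
    have h2 := om_br hLV (⟨k, hk⟩, false)
    unfold br at h1 h2
    simp only at h1 h2
    rw [h1, h2]
    ring

lemma mm_nn (i : Md) : mm i.1.1 + hs i.2 * nn i.1.1 = ωF i := by
  obtain ⟨⟨k, hk⟩, s⟩ := i
  simp only
  unfold mm nn
  rw [dif_neg hk, dif_neg hk]
  cases s
  · simp only [hs, Bool.false_eq_true, if_false]; ring
  · simp only [hs, if_true]; ring

/-- the multiplier has the order 16 -/
lemma mm_nn_le (hLV : S_LV) (hG : S_GAP) (hC : S_CODE) (k : Z3) :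
    |mm k| + |nn k| ≤ 2 * (10 ^ 60 * 108 ^ 4) * len k ^ 16 := by
  have key : ∀ i : Md, |ωF i| ≤ 10 ^ 60 * 108 ^ 4 * len i.1.1 ^ 16 := by
    intro i
    by_cases h : σM i = 0
    · have h1 : ωF i = 0 := by unfold ωF; rw [h, mul_zero]
      rw [h1, abs_zero]
      have := len_nonneg i.1.1
      positivity
    · exact ((hG hLV hC).1 i h).2
  by_cases hk : k = 0
  · subst hk
    have h1 : mm 0 = 0 := by simp [mm]
    have h2 : nn 0 = 0 := by simp [nn]
    rw [h1, h2, abs_zero, add_zero]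
    have := len_nonneg (0 : Z3)
    positivity
  · unfold mm nn
    rw [dif_neg hk, dif_neg hk]
    have h1 := key (⟨k, hk⟩, true)
    have h2 := key (⟨k, hk⟩, false)
    simp only at h1 h2
    generalize ωF (⟨k, hk⟩, true) = a at *
    generalize ωF (⟨k, hk⟩, false) = b at *
    generalize (10 : ℝ) ^ 60 * 108 ^ 4 = K at *
    generalize len k ^ 16 = l at *
    have h3 : |(a + b) / 2| ≤ (|a| + |b|) / 2 := by
      rw [abs_div, abs_two]
      have := abs_add_le a b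
      linarith
    have h4 : |(a - b) / 2| ≤ (|a| + |b|) / 2 := by
      rw [abs_div, abs_two]
      have := abs_sub a b
      linarith
    nlinarith

/-- the amplitude of the right hand side -/
lemma rhs_amp {h : Md → C3} (hF : Frame h) (h1 : S_PH1) (h2 : S_PH2) {V : Coef}
    (hV : IsField V) (i : Md) :
    dt (fun j => Kop mm nn V i.1.1 j - leray i.1.1 (adv V i.1.1) j) (cj (h i)) =
      Kz SF lvM σM (amp h V) i + qd (cK h) (amp h V) i := by
  obtain ⟨-, -, -, -, -, -, p7, p8, -, -⟩ := h1 h hF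
  rw [dt_sub_left, p7 _ _ _ _ (hV.div _), p8, ← h2 h hF V hV i, mm_nn]
  unfold Kz ωF
  ring

lemma rhs_div {h : Md → C3} (hF : Frame h) (h1 : S_PH1) (m n : Z3 → ℝ) {V : Coef}
    (hV : IsField V) (k : Z3) (hk : k ≠ 0) :
    dt (kc k) (fun j => Kop m n V k j - leray k (adv V k) j) = 0 := by
  obtain ⟨-, -, -, -, -, -, -, -, p9, p10⟩ := h1 h hF
  rw [dt_sub_right, p9 m n V k (hV.div k), p10 _ k hk, sub_zero]

/-- the right hand side in terms of the amplitudes -/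
lemma rhs_eq {h : Md → C3} (hF : Frame h) (h1 : S_PH1) (h2 : S_PH2) {V : Coef}
    (hV : IsField V) (k : Z3) (hk : k ≠ 0) (j : Fin 3) :
    Kop mm nn V k j - leray k (adv V k) j =
      (Kz SF lvM σM (amp h V) (⟨k, hk⟩, true) + qd (cK h) (amp h V) (⟨k, hk⟩, true)) *
        h (⟨k, hk⟩, true) j +
      (Kz SF lvM σM (amp h V) (⟨k, hk⟩, false) + qd (cK h) (amp h V) (⟨k, hk⟩, false)) *
        h (⟨k, hk⟩, false) j := by
  have e1 := hF.compl ⟨k, hk⟩ (fun j => Kop mm nn V k j - leray k (adv V k) j)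
    (rhs_div hF h1 _ _ hV k hk) j
  have e2 := rhs_amp hF h1 h2 hV (⟨k, hk⟩, true)
  have e3 := rhs_amp hF h1 h2 hV (⟨k, hk⟩, false)
  simp only at e1 e2 e3
  rw [e1, e2, e3]

/-- from amplitudes to fields -/
lemma sol_of {h : Md → C3} (hF : Frame h) (h1 : S_PH1) (h2 : S_PH2) {T : ℝ}
    {z : Md → ℝ → ℂ} (hz : KSol SF lvM br σM (cK h) NM T z) :
    IsSol mm nn T (fun t => fld h (fun i => z i t)) := by
  have hf : ∀ t ∈ Ico 0 T, IsField (fld h (fun i => z i t)) := by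
    intro t ht
    refine fld_field hF h1 (fun i => hz.real i t ht) fun q => ?_
    obtain ⟨M, hM⟩ := hz.reg q t ht.2
    exact ⟨M, fun i => hM t ⟨ht.1, le_rfl⟩ i⟩
  refine ⟨hf, ?_, ?_⟩
  · intro q T' hT'
    obtain ⟨M, hM⟩ := hz.reg q T' hT'
    exact ⟨2 * M, fun t ht k j => fld_bd hF (hM t ht) k j⟩
  · intro k hk j t ht
    have e1 := rhs_eq hF h1 h2 (hf t ht) k hk j
    have e2 : amp h (fld h (fun i => z i t)) = fun i => z i t := by
      funext i
      exact (h1 h hF).1 _ i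
    rw [e2] at e1
    rw [e1]
    have e3 : (fun s => fld h (fun i => z i s) k j) = fun s => z (⟨k, hk⟩, true) s *
        h (⟨k, hk⟩, true) j + z (⟨k, hk⟩, false) s * h (⟨k, hk⟩, false) j := by
      funext s
      exact fld_ne _ hk j
    rw [e3]
    exact ((hz.deriv (⟨k, hk⟩, true) t ht).mul_const _).add
      ((hz.deriv (⟨k, hk⟩, false) t ht).mul_const _)

/-- from fields to amplitudes -/
lemma ksol_of {h : Md → C3} (hF : Frame h) (h1 : S_PH1) (h2 : S_PH2) {T : ℝ}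
    {W : ℝ → Coef} (hW : IsSol mm nn T W) :
    KSol SF lvM br σM (cK h) NM T (fun i t => amp h (W t) i) := by
  obtain ⟨p1, p2, p3, p4, p5, p6, p7, p8, p9, p10⟩ := h1 h hF
  refine ⟨?_, ?_, ?_⟩
  · intro i t ht
    exact p3 (W t) (hW.field t ht).real i
  · intro i t ht
    have e1 := rhs_amp hF h1 h2 (hW.field t ht) i
    rw [← e1]
    have e2 : (fun s => amp h (W s) i) = fun s => W s i.1.1 0 * cj (h i) 0 +
        W s i.1.1 1 * cj (h i) 1 + W s i.1.1 2 * cj (h i) 2 := by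
      funext s
      unfold amp
      rw [dt_eq]
    rw [e2, dt_eq]
    have d := fun j => (hW.eqn i.1.1 i.1.2 j t ht).mul_const (cj (h i) j)
    exact ((d 0).add (d 1)).add (d 2)
  · intro q T' hT'
    obtain ⟨M, hM⟩ := hW.reg (2 * q) T' hT'
    exact ⟨3 * M, fun t ht i => amp_bdq hF fun j => hM t ht _ j⟩

/-! ### the enstrophy -/

lemma enstr_sum {h : Md → C3} (hF : Frame h) (h1 : S_PH1) {z : Md → ℂ}
    (hs : Summable fun i => NM i * ‖z i‖ ^ 2) : enstr (fld h z) = ∑' i, NM i * ‖z i‖ ^ 2 :=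
  Pool.Agent.Y5.EM.PH3.enstr_sum hF h1 hs

lemma enstr_summable {z : Md → ℂ} (hreg : ∀ q : ℕ, ∃ M, ∀ i, NM i ^ q * ‖z i‖ ≤ M) :
    Summable fun i => NM i * ‖z i‖ ^ 2 := by
  obtain ⟨M0, hM0⟩ := hreg 0
  obtain ⟨M1, hM1⟩ := hreg (3 + 1)
  have hp : Summable (fun i : Md => (NM i ^ 3)⁻¹) := Pool.Agent.Y161.EM.WTM.summ
  refine Summable.of_nonneg_of_le (fun i => ?_) (fun i => ?_) (hp.mul_left (M0 * M1))
  · have := one_le_NM i
    positivity
  · have h1 := one_le_NM i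
    have h0 : 0 < NM i ^ 3 := by positivity
    have e0 := hM0 i
    have e1 := hM1 i
    rw [pow_zero, one_mul] at e0
    rw [← div_eq_mul_inv, le_div_iff₀ h0]
    have n0 : 0 ≤ ‖z i‖ := norm_nonneg _
    have m0 : 0 ≤ M0 := n0.trans e0
    calc NM i * ‖z i‖ ^ 2 * NM i ^ 3 = ‖z i‖ * (NM i ^ (3 + 1) * ‖z i‖) := by ring
      _ ≤ M0 * M1 := by
        apply mul_le_mul e0 e1 _ m0
        positivity

theorem t_PH3 : Pool.Agent.Y6.F.S_PH3 := by
  intro hLV hG hCD _ hB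
  have h1 : S_PH1 := Pool.Agent.Y419.EM.Ph1.t_PH1
  have h2 : S_PH2 := Pool.Agent.Y26.EM.PH2.t_PH2 h1
  obtain ⟨h, hF⟩ := Pool.Agent.Y812.EM.Frame.t_FRAME
  obtain ⟨T, z, hT, hT1, hz, hz0, huniq, hen, hblow⟩ := hB h hF
  have hsol := sol_of hF h1 h2 hz
  refine ⟨mm, nn, 2 * (10 ^ 60 * 108 ^ 4), T, fun t => fld h (fun i => z i t), mm_odd hLV,
    nn_odd hLV, mm_nn_le hLV hG hCD, hT, hT1, hsol, ?_, ?_, ?_⟩
  · intro T' W hT' hWs hW0
    have hk := ksol_of hF h1 h2 hWs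
    have h0 : ∀ i, amp h (W 0) i = vM i := by
      intro i
      rw [hW0]
      have := (h1 h hF).1 (fun i => z i 0) i
      rw [this]
      exact hz0 i
    obtain ⟨g1, g2⟩ := huniq T' _ hT' hk h0
    refine ⟨g1, fun t ht => ?_⟩
    have e1 := (h1 h hF).2.1 (W t) (hWs.field t ht).zero (hWs.field t ht).div
    rw [← e1]
    congr 1
    funext i
    exact g2 i t ht
  · intro t ht
    have e1 := hen t ht
    have e2 := hen 0 ⟨le_rfl, hT⟩
    rw [energy_fld hF h1 e1.1, energy_fld hF h1 e2.1, e1.2, e2.2]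
  · intro M
    obtain ⟨t, ht, i, hi, hlt⟩ := hblow (max M 1)
    refine ⟨t, ht, ?_⟩
    have hreg : ∀ q : ℕ, ∃ M, ∀ i, NM i ^ q * ‖z i t‖ ≤ M := by
      intro q
      obtain ⟨M, hM⟩ := hz.reg q t ht.2
      exact ⟨M, fun i => hM t ⟨ht.1, le_rfl⟩ i⟩
    have hs := enstr_summable hreg
    rw [enstr_sum hF h1 hs]
    have e1 : NM i * ‖z i t‖ ^ 2 ≤ ∑' i, NM i * ‖z i t‖ ^ 2 :=
      hs.le_tsum i fun j _ => by
        have := one_le_NM j
        positivity
    refine lt_of_lt_of_le ?_ e1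
    obtain ⟨-, -, -, -, -, -, h7, -⟩ := hLV
    have e2 := (h7 i hi).1
    have e3 : (αM (lvM i) * ‖z i t‖) ^ 2 ≤ NM i * ‖z i t‖ ^ 2 := by
      rw [mul_pow]
      gcongr
    have e4 : M ≤ max M 1 := le_max_left _ _
    have e5 : 1 ≤ max M 1 := le_max_right _ _
    nlinarith

end Pool.Agent.Y876.EF.Ph3
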